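import Pool.Agent.Q92.Wick.Row

/-! Wick relations: the row bound and normal ordering (for MP_7a8f48_an). -/

set_option autoImplicit false

open Finset Filter Topology
open scoped ComplexOrder MatrixOrder

namespace Pool.Agent.Q92.Wick

open Pool.Agent.Helper188.NCM (cword)

variable {U H : Type} [CStarAlgebra U] [NormedAddCommGroup H] [InnerProductSpace ℂ H]

attribute [local instance] CStarAlgebra.spectralOrder CStarAlgebra.spectralOrderedRing

/-- the Wick relations with an operator `T ≤ t` -/
def WickRel (s : H →ₗ[ℂ] U) (t : ℝ) : Prop :=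
  ∀ (N : ℕ) (x : Fin N → H), ∃ (d : ℕ) (e : Fin d → H)
    (T : Matrix (Fin d × Fin d) (Fin d × Fin d) ℂ),
    Orthonormal ℂ e ∧ (∀ n, x n ∈ Submodule.span ℂ (Set.range e)) ∧
    ((t : ℂ) • (1 : Matrix (Fin d × Fin d) (Fin d × Fin d) ℂ) - T).PosSemidef ∧
    ∀ i j, star (s (e i)) * s (e j) =
      (if i = j then 1 else 0) + ∑ k, ∑ l, T (i, l) (j, k) • (s (e l) * star (s (e k)))

theorem psd_nonneg {ι : Type} [Fintype ι] {M : Matrix ι ι ℂ} (hM : M.PosSemidef)
    (z : ι → U) : 0 ≤ ∑ a, ∑ b, M a b • (z a * star (z b)) := by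
  obtain ⟨m, v, rfl⟩ := Matrix.posSemidef_iff_eq_sum_vecMulVec.1 hM
  have e : ∑ a, ∑ b, (∑ i, Matrix.vecMulVec (v i) (star (v i))) a b • (z a * star (z b))
      = ∑ i, (∑ a, v i a • z a) * star (∑ a, v i a • z a) := by
    have h1 : ∀ i, (∑ a, v i a • z a) * star (∑ a, v i a • z a)
        = ∑ a, ∑ b, (v i a * star (v i b)) • (z a * star (z b)) := by
      intro i
      rw [star_sum, sum_mul_sum]
      refine sum_congr rfl fun a _ => sum_congr rfl fun b _ => ?_
      rw [star_smul, smul_mul_smul_comm]
    simp only [h1]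
    conv_rhs => rw [sum_comm]
    refine sum_congr rfl fun a _ => ?_
    conv_rhs => rw [sum_comm]
    refine sum_congr rfl fun b _ => ?_
    rw [Matrix.sum_apply, sum_smul]
    rfl
  rw [e]
  exact sum_nonneg fun c _ => mul_star_self_nonneg _

theorem norm_le_of_sq_le {P : U} (h0 : 0 ≤ P) {c : ℝ} (hc : 0 ≤ c) (h : P * P ≤ c • P) :
    ‖P‖ ≤ c := by
  have hsa : star P = P := (IsSelfAdjoint.of_nonneg h0).star_eq
  have h1 : ‖P * P‖ = ‖P‖ * ‖P‖ := by
    have := CStarRing.norm_star_mul_self (x := P)
    rwa [hsa] at this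
  have h2 : 0 ≤ P * P := by
    have := star_mul_self_nonneg P
    rwa [hsa] at this
  have h3 := CStarAlgebra.norm_le_norm_of_nonneg_of_le h2 h
  rw [h1, norm_smul, Real.norm_of_nonneg hc] at h3
  rcases (norm_nonneg P).eq_or_lt with h4 | h4
  · rw [← h4]; exact hc
  · exact le_of_mul_le_mul_right h3 h4

theorem row_basis {t : ℝ} (ht0 : 0 ≤ t) (ht : t < 1) (s : H →ₗ[ℂ] U) {d : ℕ} (e : Fin d → H)
    (T : Matrix (Fin d × Fin d) (Fin d × Fin d) ℂ)
    (hT : ((t : ℂ) • (1 : Matrix (Fin d × Fin d) (Fin d × Fin d) ℂ) - T).PosSemidef)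
    (h : ∀ i j, star (s (e i)) * s (e j) =
      (if i = j then 1 else 0) + ∑ k, ∑ l, T (i, l) (j, k) • (s (e l) * star (s (e k)))) :
    ‖∑ i, s (e i) * star (s (e i))‖ ≤ 1 / (1 - t) := by
  set a : Fin d → U := fun i => s (e i) with ha
  set P : U := ∑ i, a i * star (a i) with hP
  have hP0 : 0 ≤ P := sum_nonneg fun i _ => mul_star_self_nonneg _
  have hPn : P ≤ algebraMap ℝ U ‖P‖ := IsSelfAdjoint.le_algebraMap_norm_self (IsSelfAdjoint.of_nonneg hP0)
  set z : Fin d × Fin d → U := fun p => a p.1 * a p.2 with hz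
  have h1 : P * P = P + ∑ p, ∑ r, T p r • (z p * star (z r)) := by
    have e1 : P * P = ∑ i, ∑ j, a i * (star (a i) * a j) * star (a j) := by
      rw [hP, sum_mul_sum]
      refine sum_congr rfl fun i _ => sum_congr rfl fun j _ => ?_
      simp only [mul_assoc]
    have e2 : ∀ i j, a i * (star (a i) * a j) * star (a j) =
        (if i = j then a i * star (a i) else 0) +
          ∑ k, ∑ l, T (i, l) (j, k) • ((a i * a l) * star (a j * a k)) := by
      intro i j
      rw [show star (a i) * a j = _ from h i j, mul_add, add_mul]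
      congr 1
      · split_ifs with hij
        · rw [mul_one, hij]
        · rw [mul_zero, zero_mul]
      · rw [mul_sum, sum_mul]
        refine sum_congr rfl fun k _ => ?_
        rw [mul_sum, sum_mul]
        refine sum_congr rfl fun l _ => ?_
        rw [mul_smul_comm, smul_mul_assoc, star_mul]
        simp only [mul_assoc, ha]
    rw [e1]
    simp only [e2, sum_add_distrib]
    congr 1
    · rw [hP]
      refine sum_congr rfl fun i _ => ?_
      rw [sum_ite_eq univ i, if_pos (mem_univ i)]
    · rw [← Finset.univ_product_univ, Finset.sum_product]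
      refine sum_congr rfl fun i _ => ?_
      have e3 : ∀ l, ∑ r : Fin d × Fin d, T (i, l) r • (z (i, l) * star (z r))
          = ∑ j, ∑ k, T (i, l) (j, k) • (a i * a l * star (a j * a k)) := by
        intro l
        rw [← Finset.univ_product_univ, Finset.sum_product]
      rw [Finset.univ_product_univ]
      simp only [e3]
      have e6 : ∀ j, ∑ k, ∑ l, T (i, l) (j, k) • (a i * a l * star (a j * a k))
          = ∑ l, ∑ k, T (i, l) (j, k) • (a i * a l * star (a j * a k)) := fun j => sum_comm
      simp only [e6]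
      rw [sum_comm]
  have h2 : ∑ p, ∑ r, T p r • (z p * star (z r)) ≤ t • ∑ p, z p * star (z p) := by
    have h3 := psd_nonneg hT z
    have e4 : ∑ p, ∑ r, ((t : ℂ) • (1 : Matrix (Fin d × Fin d) (Fin d × Fin d) ℂ) - T) p r •
        (z p * star (z r)) = t • (∑ p, z p * star (z p)) - ∑ p, ∑ r, T p r • (z p * star (z r)) := by
      rw [smul_sum, ← sum_sub_distrib]
      refine sum_congr rfl fun p _ => ?_
      simp only [Matrix.sub_apply, Matrix.smul_apply, sub_smul, sum_sub_distrib]
      congr 1
      rw [sum_eq_single p]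
      · rw [Matrix.one_apply_eq, smul_eq_mul, mul_one, Complex.coe_smul]
      · intro r _ hr
        rw [Matrix.one_apply_ne hr.symm, smul_zero, zero_smul]
      · intro hp; exact absurd (mem_univ p) hp
    rw [e4] at h3
    exact sub_nonneg.1 h3
  have h4 : ∑ p, z p * star (z p) ≤ ‖P‖ • P := by
    rw [← Finset.univ_product_univ, Finset.sum_product]
    have e5 : ∀ i, ∑ l, z (i, l) * star (z (i, l)) = a i * P * star (a i) := by
      intro i
      rw [hP, mul_sum, sum_mul]
      refine sum_congr rfl fun l _ => ?_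
      simp only [hz, star_mul, mul_assoc]
    simp only [e5]
    conv_rhs => rw [hP, smul_sum]
    refine sum_le_sum fun i _ => ?_
    have h5 := star_right_conjugate_le_conjugate hPn (a i)
    rwa [← Algebra.commutes, ← Algebra.smul_def, smul_mul_assoc] at h5
  have h6 : P * P ≤ (1 + t * ‖P‖) • P := by
    rw [h1, add_smul, one_smul]
    refine add_le_add_right ?_ P |>.trans_eq' rfl |>.trans (le_refl _) |> fun h => h
    refine h2.trans ?_
    have := smul_le_smul_of_nonneg_left h4 ht0
    rwa [smul_smul] at this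
  have h7 := norm_le_of_sq_le hP0 (by positivity) h6
  rw [le_div_iff₀ (by linarith)]
  linarith

/-- the Wick relations give the row bound -/
theorem WickRel.rowBdd {s : H →ₗ[ℂ] U} {t : ℝ} (ht0 : 0 ≤ t) (ht : t < 1) (h : WickRel s t) :
    RowBdd s (1 / (1 - t)) := by
  intro d f hf
  obtain ⟨d', e, T, he, hx, hT, hr⟩ := h d f
  have hC : 0 < 1 / (1 - t) := by
    have : 0 < 1 - t := by linarith
    positivity
  have hb := row_basis ht0 ht s e T hT hr
  have hexp : ∀ i, f i = ∑ j, (inner ℂ (e j) (f i) : ℂ) • e j := by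
    intro i
    obtain ⟨c, hc⟩ := (Submodule.mem_span_range_iff_exists_fun ℂ).1 (hx i)
    have : ∀ j, (inner ℂ (e j) (f i) : ℂ) = c j := by
      intro j
      rw [← hc]
      exact he.inner_right_fintype c j
    simp only [this]
    exact hc.symm
  set P : U := ∑ i, s (f i) * star (s (f i)) with hP
  have hP0 : 0 ≤ P := sum_nonneg fun i _ => mul_star_self_nonneg _
  have hsa : star P = P := (IsSelfAdjoint.of_nonneg hP0).star_eq
  set Y : Fin d' → U := fun j => ∑ i, (inner ℂ (e j) (f i) : ℂ) • star (s (f i)) with hY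
  have h1 : P = ∑ j, s (e j) * Y j := by
    have : ∀ i, s (f i) * star (s (f i)) =
        ∑ j, s (e j) * ((inner ℂ (e j) (f i) : ℂ) • star (s (f i))) := by
      intro i
      have h2 : s (f i) = ∑ j, (inner ℂ (e j) (f i) : ℂ) • s (e j) := by
        conv_lhs => rw [hexp i]
        rw [map_sum]
        simp only [map_smul]
      conv_lhs => enter [1]; rw [h2]
      rw [sum_mul]
      refine sum_congr rfl fun j _ => ?_
      rw [smul_mul_assoc, mul_smul_comm]
    rw [hP]
    simp only [this]
    rw [sum_comm]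
    refine sum_congr rfl fun j _ => ?_
    rw [hY, mul_sum]
  have h2 : ∑ j, star (Y j) * Y j = P := by
    have e1 : ∀ j, star (Y j) * Y j = ∑ i, ∑ k,
        (star (inner ℂ (e j) (f i) : ℂ) * inner ℂ (e j) (f k)) • (s (f i) * star (s (f k))) := by
      intro j
      rw [hY, star_sum, sum_mul_sum]
      refine sum_congr rfl fun i _ => sum_congr rfl fun k _ => ?_
      rw [star_smul, star_star, smul_mul_smul_comm]
    simp only [e1]
    rw [sum_comm, hP]
    refine sum_congr rfl fun i _ => ?_
    rw [sum_comm, sum_eq_single i]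
    · rw [← sum_smul]
      have : ∑ j, star (inner ℂ (e j) (f i) : ℂ) * inner ℂ (e j) (f i) = 1 := by
        have h3 : (inner ℂ (f i) (f i) : ℂ) = 1 := by
          rw [orthonormal_iff_ite.1 hf]; simp
        rw [← h3]
        conv_rhs => enter [2]; rw [hexp i]
        rw [sum_inner]
        refine sum_congr rfl fun j _ => ?_
        rw [inner_smul_left]; rfl
      rw [this, one_smul]
    · intro k _ hk
      rw [← sum_smul]
      have : ∑ j, star (inner ℂ (e j) (f i) : ℂ) * inner ℂ (e j) (f k) = 0 := by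
        have h3 : (inner ℂ (f i) (f k) : ℂ) = 0 := by
          rw [orthonormal_iff_ite.1 hf]; simp [hk.symm]
        rw [← h3]
        conv_rhs => enter [2]; rw [hexp i]
        rw [sum_inner]
        refine sum_congr rfl fun j _ => ?_
        rw [inner_smul_left]; rfl
      rw [this, zero_smul]
    · intro hi; exact absurd (mem_univ i) hi
  have h3 := row_cs (fun j => s (e j)) Y hC hb
  rw [← h1, h2, hsa] at h3
  exact norm_le_of_sq_le hP0 hC.le h3

/-- normal ordering of one pair -/
theorem WickRel.pair {s : H →ₗ[ℂ] U} {t : ℝ} (h : WickRel s t) (η ξ : H) :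
    star (s η) * s ξ ∈
      Submodule.span ℂ ({(1 : U)} ∪ {x | ∃ ζ θ, x = s ζ * star (s θ)}) := by
  obtain ⟨d, e, T, he, hx, hT, hr⟩ := h 2 ![η, ξ]
  obtain ⟨a, ha⟩ := (Submodule.mem_span_range_iff_exists_fun ℂ).1 (hx 0)
  obtain ⟨b, hb⟩ := (Submodule.mem_span_range_iff_exists_fun ℂ).1 (hx 1)
  simp only [Matrix.cons_val_zero, Matrix.cons_val_one] at ha hb
  rw [← ha, ← hb, map_sum, map_sum, star_sum, sum_mul_sum]
  refine Submodule.sum_mem _ fun i _ => Submodule.sum_mem _ fun j _ => ?_
  rw [map_smul, map_smul, star_smul, smul_mul_smul_comm, hr]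
  refine Submodule.smul_mem _ _ (Submodule.add_mem _ ?_ ?_)
  · split_ifs
    · exact Submodule.subset_span (Or.inl rfl)
    · exact Submodule.zero_mem _
  · refine Submodule.sum_mem _ fun k _ => Submodule.sum_mem _ fun l _ => ?_
    exact Submodule.smul_mem _ _ (Submodule.subset_span (Or.inr ⟨_, _, rfl⟩))

/-- the span of the Wick ordered words -/
noncomputable def WW (s : H →ₗ[ℂ] U) : Submodule ℂ U := Submodule.span ℂ (Set.range (cword s))

theorem left_s (s : H →ₗ[ℂ] U) (ζ : H) {x : U} (hx : x ∈ WW s) : s ζ * x ∈ WW s := by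
  induction hx using Submodule.span_induction with
  | mem x hx =>
    obtain ⟨p, rfl⟩ := hx
    exact Submodule.subset_span ⟨(ζ :: p.1, p.2), by simp [cword, mul_assoc]⟩
  | zero => rw [mul_zero]; exact Submodule.zero_mem _
  | add x y _ _ hx hy => rw [mul_add]; exact Submodule.add_mem _ hx hy
  | smul c x _ hx => rw [mul_smul_comm]; exact Submodule.smul_mem _ _ hx

theorem left_star_word {s : H →ₗ[ℂ] U} {t : ℝ} (h : WickRel s t) (q : List H) (p : List H) :
    ∀ η : H, star (s η) * cword s (p, q) ∈ WW s := by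
  induction p with
  | nil =>
    intro η
    exact Submodule.subset_span ⟨([], q ++ [η]), by simp [cword]⟩
  | cons ξ p ih =>
    intro η
    have e1 : star (s η) * cword s (ξ :: p, q) = (star (s η) * s ξ) * cword s (p, q) := by
      simp [cword, mul_assoc]
    rw [e1]
    have h1 := h.pair η ξ
    generalize star (s η) * s ξ = y at h1
    induction h1 using Submodule.span_induction with
    | mem x hx =>
      rcases hx with hx | ⟨ζ, θ, rfl⟩
      · rw [Set.mem_singleton_iff.1 hx, one_mul]
        exact Submodule.subset_span ⟨_, rfl⟩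
      · rw [mul_assoc]
        exact left_s s ζ (ih θ)
    | zero => rw [zero_mul]; exact Submodule.zero_mem _
    | add x y _ _ hx hy => rw [add_mul]; exact Submodule.add_mem _ hx hy
    | smul c x _ hx => rw [smul_mul_assoc]; exact Submodule.smul_mem _ _ hx

theorem left_star {s : H →ₗ[ℂ] U} {t : ℝ} (h : WickRel s t) (η : H) {x : U} (hx : x ∈ WW s) :
    star (s η) * x ∈ WW s := by
  induction hx using Submodule.span_induction with
  | mem x hx =>
    obtain ⟨p, rfl⟩ := hx
    exact left_star_word h p.2 p.1 η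
  | zero => rw [mul_zero]; exact Submodule.zero_mem _
  | add x y _ _ hx hy => rw [mul_add]; exact Submodule.add_mem _ hx hy
  | smul c x _ hx => rw [mul_smul_comm]; exact Submodule.smul_mem _ _ hx

theorem adjoin_le {s : H →ₗ[ℂ] U} {t : ℝ} (h : WickRel s t) :
    ∀ x ∈ StarAlgebra.adjoin ℂ (Set.range s), x ∈ WW s := by
  intro x hx
  have key : ∀ y ∈ WW s, x * y ∈ WW s := by
    rw [← StarSubalgebra.mem_toSubalgebra, StarAlgebra.adjoin_toSubalgebra] at hx
    induction hx using Algebra.adjoin_induction with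
    | mem x hx =>
      rcases hx with ⟨ζ, rfl⟩ | hx
      · exact fun y hy => left_s s ζ hy
      · obtain ⟨η, hη⟩ := Set.mem_star.1 hx
        have : x = star (s η) := by rw [hη, star_star]
        rw [this]
        exact fun y hy => left_star h η hy
    | algebraMap r =>
      intro y hy
      rw [← Algebra.smul_def]
      exact Submodule.smul_mem _ _ hy
    | add x y _ _ hx hy =>
      intro w hw
      rw [add_mul]
      exact Submodule.add_mem _ (hx w hw) (hy w hw)
    | mul x y _ _ hx hy =>
      intro w hw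
      rw [mul_assoc]
      exact hx _ (hy w hw)
  have h1 : (1 : U) ∈ WW s := Submodule.subset_span ⟨([], []), by simp [cword]⟩
  simpa using key 1 h1

/-- the relations with one real parameter -/
theorem wickRel_of_q {s : H →ₗ[ℂ] U} {q : ℝ}
    (h : ∀ η ξ : H, star (s η) * s ξ = (inner ℂ η ξ : ℂ) • (1 : U) + q • (s ξ * star (s η))) :
    WickRel s |q| := by
  intro N x
  classical
  obtain ⟨d, e, he, hx⟩ := exists_onb N (fun n => if hn : n < N then x ⟨n, hn⟩ else 0)
  refine ⟨d, e, fun p r => if p.1 = r.2 ∧ p.2 = r.1 then (q : ℂ) else 0, he, fun n => ?_, ?_, ?_⟩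
  · have := hx n n.2
    simp only [Fin.is_lt, dif_pos, Fin.eta] at this
    rw [this]
    exact Submodule.sum_mem _ fun i _ => Submodule.smul_mem _ _ (Submodule.subset_span ⟨i, rfl⟩)
  · set F : Matrix (Fin d × Fin d) (Fin d × Fin d) ℂ :=
      Matrix.of fun p r => if p.1 = r.2 ∧ p.2 = r.1 then 1 else 0 with hF
    have hFF : F * F = 1 := by
      ext ⟨a, b⟩ ⟨c, f⟩
      rw [Matrix.mul_apply, sum_eq_single (b, a)]
      · simp only [hF, Matrix.of_apply, and_self, if_true, one_mul, Matrix.one_apply,
          Prod.mk.injEq]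
        congr 1
        exact propext and_comm
      · rintro ⟨x, y⟩ _ hxy
        simp only [hF, Matrix.of_apply]
        rw [if_neg (fun h => hxy (by rw [h.1, h.2])), zero_mul]
      · intro h; exact absurd (mem_univ _) h
    have hFh : F.conjTranspose = F := by
      ext ⟨a, b⟩ ⟨c, f⟩
      simp only [hF, Matrix.conjTranspose_apply, Matrix.of_apply]
      split_ifs with h1 h2 h2
      · simp
      · exact absurd ⟨h1.2.symm, h1.1.symm⟩ h2
      · exact absurd ⟨h2.2.symm, h2.1.symm⟩ h1
      · simp
    obtain ⟨ε, hε, hεq⟩ : ∃ ε : ℝ, ε * ε = 1 ∧ |q| * ε = q := by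
      rcases le_total 0 q with hq | hq
      · exact ⟨1, by norm_num, by rw [abs_of_nonneg hq, mul_one]⟩
      · exact ⟨-1, by norm_num, by rw [abs_of_nonpos hq]; ring⟩
    have hTF : (fun p r => if p.1 = r.2 ∧ p.2 = r.1 then (q : ℂ) else 0 :
        Matrix (Fin d × Fin d) (Fin d × Fin d) ℂ) = (q : ℂ) • F := by
      ext p r
      simp only [hF, Matrix.smul_apply, Matrix.of_apply, smul_eq_mul]
      split_ifs <;> simp
    rw [hTF]
    have hεc : (ε : ℂ) * ε = 1 := by exact_mod_cast hε
    have hqc : ((|q| : ℝ) : ℂ) * ε = q := by exact_mod_cast hεq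
    have e1 : ((|q| : ℝ) : ℂ) • (1 : Matrix (Fin d × Fin d) (Fin d × Fin d) ℂ) - (q : ℂ) • F
        = ((|q| / 2 : ℝ) : ℂ) • ((1 - (ε : ℂ) • F).conjTranspose * (1 - (ε : ℂ) • F)) := by
      have e2 : (1 - (ε : ℂ) • F).conjTranspose * (1 - (ε : ℂ) • F)
          = (2 : ℂ) • (1 - (ε : ℂ) • F) := by
        rw [Matrix.conjTranspose_sub, Matrix.conjTranspose_smul, hFh, Matrix.conjTranspose_one,
          Complex.star_def, Complex.conj_ofReal, sub_mul, mul_sub, mul_sub, one_mul, mul_one, one_mul,
          smul_mul_smul_comm, hFF, hεc, two_smul, one_smul]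
        abel
      rw [e2, smul_smul, ← hqc, mul_smul, ← smul_sub]
      congr 1
      push_cast
      ring
    rw [e1]
    exact (Matrix.posSemidef_conjTranspose_mul_self _).smul
      (by rw [Complex.zero_le_real]; positivity)
  · intro i j
    rw [h, orthonormal_iff_ite.1 he]
    congr 1
    · split_ifs <;> simp
    · rw [sum_eq_single i]
      · rw [sum_eq_single j]
        · simp
        · intro l _ hl; simp [hl]
        · intro hj; exact absurd (mem_univ j) hj
      · intro k _ hk
        refine sum_eq_zero fun l _ => ?_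
        simp [Ne.symm hk]
      · intro hi; exact absurd (mem_univ i) hi

end Pool.Agent.Q92.Wick
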