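import Pool.Agent.TH254.FP.Main
import Pool.Agent.Helper188.NCM.Cuntz
import Pool.Agent.H398R3.NCM.PD

/-! Row bounded families of generators and Wick ordered words (for MP_7a8f48_an). -/

set_option autoImplicit false

open Finset Filter Topology
open scoped ComplexOrder

namespace Pool.Agent.Q92.Wick

variable {U H : Type} [CStarAlgebra U] [NormedAddCommGroup H] [InnerProductSpace ℂ H]

attribute [local instance] CStarAlgebra.spectralOrder CStarAlgebra.spectralOrderedRing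

/-- factorised kernels -/
def Fac (N : ℕ) (K : ℕ → ℕ → ℂ) : Prop :=
  ∃ (R : Type) (_ : Fintype R) (g : R → ℕ → ℂ), ∀ m n, m < N → n < N →
    K m n = ∑ r, star (g r m) * g r n

/-- the quadratic expression of a kernel -/
def QK (N : ℕ) (K : ℕ → ℕ → ℂ) (Z : ℕ → U) : U :=
  ∑ m ∈ range N, ∑ n ∈ range N, K m n • (star (Z m) * Z n)

/-- the sum of squares form -/
theorem qk_eq {N : ℕ} {K : ℕ → ℕ → ℂ} {R : Type} [Fintype R] {g : R → ℕ → ℂ}
    (h : ∀ m n, m < N → n < N → K m n = ∑ r, star (g r m) * g r n) (Z : ℕ → U) :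
    QK N K Z = ∑ r, star (∑ n ∈ range N, g r n • Z n) * ∑ n ∈ range N, g r n • Z n := by
  have e : ∀ r, star (∑ n ∈ range N, g r n • Z n) * ∑ n ∈ range N, g r n • Z n
      = ∑ m ∈ range N, ∑ n ∈ range N, (star (g r m) * g r n) • (star (Z m) * Z n) := by
    intro r
    rw [star_sum, sum_mul_sum]
    refine sum_congr rfl fun m _ => sum_congr rfl fun n _ => ?_
    rw [star_smul, smul_mul_smul_comm]
  simp only [e]
  rw [sum_comm, QK]
  refine sum_congr rfl fun m hm => ?_
  rw [sum_comm]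
  refine sum_congr rfl fun n hn => ?_
  rw [← sum_smul, h m n (mem_range.1 hm) (mem_range.1 hn)]

/-- `s` maps orthonormal families to rows of norm at most `√C` -/
def RowBdd (s : H →ₗ[ℂ] U) (C : ℝ) : Prop :=
  ∀ (d : ℕ) (e : Fin d → H), Orthonormal ℂ e → ‖∑ i, s (e i) * star (s (e i))‖ ≤ C

/-- Cauchy-Schwarz for a row and a column -/
theorem row_cs {ι : Type} [Fintype ι] (a Y : ι → U) {C : ℝ} (hC : 0 < C)
    (h : ‖∑ i, a i * star (a i)‖ ≤ C) :
    star (∑ i, a i * Y i) * (∑ i, a i * Y i) ≤ C • ∑ i, star (Y i) * Y i := by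
  set X := ∑ i, a i * Y i with hX
  set P := ∑ i, a i * star (a i) with hP
  have hP0 : 0 ≤ P := sum_nonneg fun i _ => mul_star_self_nonneg _
  have hP1 : P ≤ algebraMap ℝ U C := by
    refine (IsSelfAdjoint.le_algebraMap_norm_self (IsSelfAdjoint.of_nonneg hP0)).trans ?_
    exact algebraMap_mono U h
  have h1 : star X * P * X ≤ C • (star X * X) := by
    have := star_left_conjugate_le_conjugate hP1 X
    rwa [← Algebra.commutes, ← Algebra.smul_def, smul_mul_assoc] at this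
  have h2 : 0 ≤ ∑ i, star (Y i - C⁻¹ • (star (a i) * X)) * (Y i - C⁻¹ • (star (a i) * X)) :=
    sum_nonneg fun i _ => star_mul_self_nonneg _
  have h3 : ∑ i, star (Y i - C⁻¹ • (star (a i) * X)) * (Y i - C⁻¹ • (star (a i) * X))
      = (∑ i, star (Y i) * Y i) - C⁻¹ • (star X * X) - C⁻¹ • (star X * X)
        + (C⁻¹ * C⁻¹) • (star X * P * X) := by
    have e : ∀ i, star (Y i - C⁻¹ • (star (a i) * X)) * (Y i - C⁻¹ • (star (a i) * X))
        = star (Y i) * Y i - C⁻¹ • (star (a i * Y i) * X) - C⁻¹ • (star X * (a i * Y i))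
          + (C⁻¹ * C⁻¹) • (star X * (a i * star (a i)) * X) := by
      intro i
      simp only [star_sub, star_smul, star_mul, star_star, sub_mul, mul_sub, smul_mul_assoc,
        mul_smul_comm, smul_sub, smul_smul, mul_assoc, star_trivial]
      abel
    simp only [e]
    rw [sum_add_distrib, sum_sub_distrib, sum_sub_distrib, ← smul_sum, ← smul_sum, ← smul_sum,
      ← sum_mul, ← mul_sum, ← sum_mul, ← mul_sum, ← star_sum, ← hX, ← hP]
  rw [h3] at h2
  have h4 : (C⁻¹ * C⁻¹) • (star X * P * X) ≤ C⁻¹ • (star X * X) := by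
    have := smul_le_smul_of_nonneg_left h1 (by positivity : (0 : ℝ) ≤ C⁻¹ * C⁻¹)
    rw [smul_smul] at this
    have e : C⁻¹ * C⁻¹ * C = C⁻¹ := by field_simp
    rwa [e] at this
  have h5 : C⁻¹ • (star X * X) ≤ ∑ i, star (Y i) * Y i := by
    have h6 : 0 ≤ (∑ i, star (Y i) * Y i) - C⁻¹ • (star X * X) := by
      refine h2.trans ?_
      calc _ ≤ (∑ i, star (Y i) * Y i) - C⁻¹ • (star X * X) - C⁻¹ • (star X * X)
            + C⁻¹ • (star X * X) := by gcongr
        _ = _ := by abel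
    exact sub_nonneg.1 h6
  have := smul_le_smul_of_nonneg_left h5 hC.le
  rwa [smul_smul, mul_inv_cancel₀ hC.ne', one_smul] at this

/-- an orthonormal basis of the span of finitely many vectors -/
theorem exists_onb (N : ℕ) (x : ℕ → H) : ∃ (d : ℕ) (e : Fin d → H), Orthonormal ℂ e ∧
    ∀ n < N, x n = ∑ i, (inner ℂ (e i) (x n) : ℂ) • e i := by
  classical
  set S : Submodule ℂ H := Submodule.span ℂ (x '' (Set.Iio N)) with hS
  have hfin : FiniteDimensional ℂ S :=
    FiniteDimensional.span_of_finite ℂ ((Set.finite_Iio N).image x)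
  set b := stdOrthonormalBasis ℂ S with hb
  refine ⟨Module.finrank ℂ S, fun i => (b i : H), ?_, fun n hn => ?_⟩
  · have := b.orthonormal
    exact this.comp_linearIsometry S.subtypeₗᵢ
  · have hx : x n ∈ S := Submodule.subset_span ⟨n, hn, rfl⟩
    have h1 := b.sum_repr (⟨x n, hx⟩ : S)
    have h2 := congrArg (fun y : S => (y : H)) h1
    simp only [Submodule.coe_sum, Submodule.coe_smul] at h2
    conv_lhs => rw [← h2]
    refine sum_congr rfl fun i _ => ?_
    rw [b.repr_apply_apply]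
    rfl

theorem Fac.mul_inner {N : ℕ} {K : ℕ → ℕ → ℂ} (hK : Fac N K) (x : ℕ → H) :
    Fac N (fun m n => K m n * (inner ℂ (x m) (x n) : ℂ)) := by
  obtain ⟨R, _, g, hg⟩ := hK
  obtain ⟨d, e, he, hx⟩ := exists_onb N x
  refine ⟨R × Fin d, inferInstance, fun p n => g p.1 n * (inner ℂ (e p.2) (x n) : ℂ), ?_⟩
  intro m n hm hn
  have h1 : (inner ℂ (x m) (x n) : ℂ) = ∑ i, star (inner ℂ (e i) (x m) : ℂ) * inner ℂ (e i) (x n) := by
    conv_lhs => rw [hx m hm]
    rw [sum_inner]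
    refine sum_congr rfl fun i _ => ?_
    rw [inner_smul_left]
    rfl
  simp only
  rw [h1, hg m n hm hn, sum_mul_sum, ← Finset.univ_product_univ, Finset.sum_product]
  refine sum_congr rfl fun r _ => sum_congr rfl fun i _ => ?_
  rw [star_mul']
  ring

/-- one step: the generators are removed from the quadratic expression -/
theorem qk_step {s : H →ₗ[ℂ] U} {C : ℝ} (hC : 0 < C) (hs : RowBdd s C) {N : ℕ} {K : ℕ → ℕ → ℂ}
    (hK : Fac N K) (x : ℕ → H) (Z : ℕ → U) :
    QK N K (fun n => s (x n) * Z n) ≤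
      C • QK N (fun m n => K m n * (inner ℂ (x m) (x n) : ℂ)) Z := by
  obtain ⟨R, _, g, hg⟩ := hK
  obtain ⟨d, e, he, hx⟩ := exists_onb N x
  have hg' : ∀ m n, m < N → n < N → K m n * (inner ℂ (x m) (x n) : ℂ) =
      ∑ p : R × Fin d, star (g p.1 m * (inner ℂ (e p.2) (x m) : ℂ)) *
        (g p.1 n * (inner ℂ (e p.2) (x n) : ℂ)) := by
    intro m n hm hn
    have h1 : (inner ℂ (x m) (x n) : ℂ) =
        ∑ i, star (inner ℂ (e i) (x m) : ℂ) * inner ℂ (e i) (x n) := by
      conv_lhs => rw [hx m hm]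
      rw [sum_inner]
      refine sum_congr rfl fun i _ => ?_
      rw [inner_smul_left]
      rfl
    rw [h1, hg m n hm hn, sum_mul_sum, ← Finset.univ_product_univ, Finset.sum_product]
    refine sum_congr rfl fun r _ => sum_congr rfl fun i _ => ?_
    rw [star_mul']
    ring
  rw [qk_eq hg, qk_eq (R := R × Fin d) (g := fun p n => g p.1 n * (inner ℂ (e p.2) (x n) : ℂ)) hg',
    ← Finset.univ_product_univ, Finset.sum_product, smul_sum]
  refine sum_le_sum fun r _ => ?_
  have h2 : ∑ n ∈ range N, g r n • (s (x n) * Z n)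
      = ∑ i, s (e i) * ∑ n ∈ range N, (g r n * (inner ℂ (e i) (x n) : ℂ)) • Z n := by
    have h3 : ∀ n ∈ range N, g r n • (s (x n) * Z n)
        = ∑ i, s (e i) * ((g r n * (inner ℂ (e i) (x n) : ℂ)) • Z n) := by
      intro n hn
      conv_lhs => rw [hx n (mem_range.1 hn)]
      rw [map_sum, sum_mul, smul_sum]
      refine sum_congr rfl fun i _ => ?_
      rw [map_smul, smul_mul_assoc, smul_smul, mul_smul_comm]
    rw [sum_congr rfl h3, sum_comm]
    refine sum_congr rfl fun i _ => ?_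
    rw [mul_sum]
  rw [h2]
  exact row_cs (fun i => s (e i)) _ hC (hs d e he)

/-- words -/
theorem qk_word {s : H →ₗ[ℂ] U} {C : ℝ} (hC : 0 < C) (hs : RowBdd s C) (V : H → H) {N : ℕ}
    (l : List H) : ∀ (K : ℕ → ℕ → ℂ), Fac N K → ∀ Z : ℕ → U,
    Fac N (fun m n => K m n * (l.map fun ξ => (inner ℂ (V^[m] ξ) (V^[n] ξ) : ℂ)).prod) ∧
    QK N K (fun n => ((l.map V^[n]).map s).prod * Z n) ≤
      C ^ l.length •
        QK N (fun m n => K m n * (l.map fun ξ => (inner ℂ (V^[m] ξ) (V^[n] ξ) : ℂ)).prod) Z := by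
  induction l with
  | nil => intro K hK Z; simpa using hK
  | cons ξ l ih =>
    intro K hK Z
    have hK' := hK.mul_inner (fun n => V^[n] ξ)
    obtain ⟨h1, h2⟩ := ih _ hK' Z
    have e : (fun m n => K m n * ((ξ :: l).map fun ξ => (inner ℂ (V^[m] ξ) (V^[n] ξ) : ℂ)).prod)
        = fun m n => K m n * (inner ℂ (V^[m] ξ) (V^[n] ξ) : ℂ) *
          (l.map fun ξ => (inner ℂ (V^[m] ξ) (V^[n] ξ) : ℂ)).prod := by
      funext m n
      rw [List.map_cons, List.prod_cons, mul_assoc]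
    rw [e]
    refine ⟨h1, ?_⟩
    have h3 := qk_step hC hs hK (fun n => V^[n] ξ) (fun n => ((l.map V^[n]).map s).prod * Z n)
    have h4 := smul_le_smul_of_nonneg_left h2 hC.le
    rw [smul_smul, ← pow_succ'] at h4
    refine le_trans (le_of_eq ?_) (h3.trans h4)
    congr 1
    funext n
    simp only [List.map_cons, List.prod_cons, mul_assoc]

theorem qk_one {N : ℕ} {K : ℕ → ℕ → ℂ} (hK : Fac N K) :
    QK N K (fun _ => (1 : U)) = (∑ m ∈ range N, ∑ n ∈ range N, K m n) • (1 : U) ∧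
    0 ≤ (∑ m ∈ range N, ∑ n ∈ range N, K m n).re ∧
    (∑ m ∈ range N, ∑ n ∈ range N, K m n).im = 0 := by
  refine ⟨?_, ?_⟩
  · simp only [QK, star_one, mul_one, ← sum_smul]
  · obtain ⟨R, _, g, hg⟩ := hK
    have h := qk_eq (U := ℂ) hg (fun _ => (1 : ℂ))
    simp only [QK, star_one, mul_one, smul_eq_mul] at h
    rw [h, Complex.re_sum, Complex.im_sum]
    have e : ∀ z : ℂ, (star z * z).re = ‖z‖ ^ 2 ∧ (star z * z).im = 0 := by
      intro z
      rw [Complex.star_def, ← Complex.normSq_eq_conj_mul_self, Complex.normSq_eq_norm_sq]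
      exact ⟨Complex.ofReal_re _, Complex.ofReal_im _⟩
    exact ⟨sum_nonneg fun r _ => by rw [(e _).1]; positivity,
      sum_eq_zero fun r _ => (e _).2⟩

theorem norm_sum_star_le {N : ℕ} {K : ℕ → ℕ → ℂ} (hK : Fac N K) {s : H →ₗ[ℂ] U} {C : ℝ}
    (hC : 0 < C) (hs : RowBdd s C) (V : H → H) (l : List H) :
    ‖QK N K (fun n => star ((l.map V^[n]).map s).prod)‖ ≤ C ^ l.length *
      (∑ m ∈ range N, ∑ n ∈ range N, K m n *
        (l.map fun ξ => (inner ℂ (V^[n] ξ) (V^[m] ξ) : ℂ)).prod).re := by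
  obtain ⟨R, _, g, hg⟩ := hK
  rw [qk_eq hg]
  refine (norm_sum_le _ _).trans ?_
  have key : ∀ r, ‖star (∑ n ∈ range N, g r n • star ((l.map V^[n]).map s).prod) *
      ∑ n ∈ range N, g r n • star ((l.map V^[n]).map s).prod‖ ≤ C ^ l.length *
      (∑ m ∈ range N, ∑ n ∈ range N, (star (g r m) * g r n) *
        (l.map fun ξ => (inner ℂ (V^[n] ξ) (V^[m] ξ) : ℂ)).prod).re := by
    intro r
    set T : U := ∑ n ∈ range N, star (g r n) • ((l.map V^[n]).map s).prod with hT
    have e1 : ∑ n ∈ range N, g r n • star ((l.map V^[n]).map s).prod = star T := by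
      rw [hT, star_sum]
      refine sum_congr rfl fun n _ => ?_
      rw [star_smul, star_star]
    have hF : Fac N (fun m n => g r m * star (g r n)) :=
      ⟨Unit, inferInstance, fun _ n => star (g r n), fun m n _ _ => by simp⟩
    have e2 : star T * T = QK N (fun m n => g r m * star (g r n))
        (fun n => ((l.map V^[n]).map s).prod * 1) := by
      rw [qk_eq (R := Unit) (g := fun _ n => star (g r n)) (fun m n _ _ => by simp)]
      simp [hT]
    obtain ⟨h1, h2⟩ := qk_word hC hs V l _ hF (fun _ => (1 : U))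
    obtain ⟨h3, h4, h5⟩ := qk_one (U := U) h1
    rw [← e2, h3] at h2
    have h6 : ‖star T * T‖ ≤ ‖C ^ l.length • ((∑ m ∈ range N, ∑ n ∈ range N,
        g r m * star (g r n) * (l.map fun ξ => (inner ℂ (V^[m] ξ) (V^[n] ξ) : ℂ)).prod) • (1 : U))‖ :=
      CStarAlgebra.norm_le_norm_of_nonneg_of_le (star_mul_self_nonneg T) h2
    have h7 : ‖star (star T) * star T‖ = ‖star T * T‖ := by
      rw [star_star, CStarRing.norm_star_mul_self, CStarRing.norm_self_mul_star]
    rw [e1, h7]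
    refine h6.trans ?_
    rw [norm_smul, norm_pow, Real.norm_of_nonneg hC.le, norm_smul]
    refine mul_le_mul_of_nonneg_left ?_ (by positivity)
    have h8 : ‖(∑ m ∈ range N, ∑ n ∈ range N,
        g r m * star (g r n) * (l.map fun ξ => (inner ℂ (V^[m] ξ) (V^[n] ξ) : ℂ)).prod)‖
        = (∑ m ∈ range N, ∑ n ∈ range N,
        g r m * star (g r n) * (l.map fun ξ => (inner ℂ (V^[m] ξ) (V^[n] ξ) : ℂ)).prod).re := by
      rw [← Complex.re_eq_norm.2 (by rw [Complex.le_def]; exact ⟨h4, by simpa using h5.symm⟩)]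
    have h9 : (∑ m ∈ range N, ∑ n ∈ range N,
        g r m * star (g r n) * (l.map fun ξ => (inner ℂ (V^[m] ξ) (V^[n] ξ) : ℂ)).prod)
        = ∑ m ∈ range N, ∑ n ∈ range N, (star (g r m) * g r n) *
        (l.map fun ξ => (inner ℂ (V^[n] ξ) (V^[m] ξ) : ℂ)).prod := by
      rw [sum_comm]
      refine sum_congr rfl fun m _ => sum_congr rfl fun n _ => ?_
      ring
    rw [h8, ← h9]
    have hone : ‖(1 : U)‖ ≤ 1 := by
      rcases subsingleton_or_nontrivial U with hU | hU
      · rw [Subsingleton.elim (1 : U) 0, norm_zero]; exact zero_le_one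
      · exact CStarRing.norm_one.le
    exact mul_le_of_le_one_right h4 hone
  refine (sum_le_sum fun r _ => key r).trans (le_of_eq ?_)
  rw [← mul_sum, ← Complex.re_sum]
  congr 2
  rw [sum_comm]
  refine sum_congr rfl fun m hm => ?_
  rw [sum_comm]
  refine sum_congr rfl fun n hn => ?_
  rw [← sum_mul, hg m n (mem_range.1 hm) (mem_range.1 hn)]

theorem Fac.mul_inner' {N : ℕ} {K : ℕ → ℕ → ℂ} (hK : Fac N K) (x : ℕ → H) :
    Fac N (fun m n => K m n * (inner ℂ (x n) (x m) : ℂ)) := by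
  obtain ⟨R, _, g, hg⟩ := hK
  obtain ⟨d, e, he, hx⟩ := exists_onb N x
  refine ⟨R × Fin d, inferInstance, fun p n => g p.1 n * star (inner ℂ (e p.2) (x n) : ℂ), ?_⟩
  intro m n hm hn
  have h1 : (inner ℂ (x n) (x m) : ℂ) = ∑ i, (inner ℂ (e i) (x m) : ℂ) * star (inner ℂ (e i) (x n) : ℂ) := by
    conv_lhs => rw [hx n hn]
    rw [sum_inner]
    refine sum_congr rfl fun i _ => ?_
    rw [inner_smul_left, mul_comm]
    rfl
  simp only
  rw [h1, hg m n hm hn, sum_mul_sum, ← Finset.univ_product_univ, Finset.sum_product]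
  refine sum_congr rfl fun r _ => sum_congr rfl fun i _ => ?_
  rw [star_mul', star_star]
  ring

theorem fac_list' (V : H → H) {N : ℕ} (l : List H) : ∀ (K : ℕ → ℕ → ℂ), Fac N K →
    Fac N (fun m n => K m n * (l.map fun ξ => (inner ℂ (V^[n] ξ) (V^[m] ξ) : ℂ)).prod) := by
  induction l with
  | nil => intro K hK; simpa using hK
  | cons ξ l ih =>
    intro K hK
    have h := ih _ (hK.mul_inner' (fun n => V^[n] ξ))
    have e : (fun m n => K m n * ((ξ :: l).map fun ξ => (inner ℂ (V^[n] ξ) (V^[m] ξ) : ℂ)).prod)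
        = fun m n => K m n * (inner ℂ (V^[n] ξ) (V^[m] ξ) : ℂ) *
          (l.map fun ξ => (inner ℂ (V^[n] ξ) (V^[m] ξ) : ℂ)).prod := by
      funext m n
      rw [List.map_cons, List.prod_cons, mul_assoc]
    rw [e]
    exact h

open Pool.Agent.Helper188.NCM in
/-- the Hilbert-Schmidt bound for Wick ordered words -/
theorem key_bound {s : H →ₗ[ℂ] U} {C : ℝ} (hC : 0 < C) (hs : RowBdd s C)
    (V : H → H) (hV : ∀ η ξ, (inner ℂ (V η) (V ξ) : ℂ) = inner ℂ η ξ) (p : List H × List H)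
    (N : ℕ) (c : ℕ → ℂ) :
    ‖∑ n ∈ range N, c n • (((p.1.map V^[n]).map s).prod * star ((p.2.map V^[n]).map s).prod)‖ ^ 2
      ≤ C ^ (p.1.length + p.2.length) * (∑ n ∈ range N, ∑ m ∈ range N, c n * star (c m) *
        ((p.2.map fun η => star (gi V η ((n : ℤ) - m))).prod *
          (p.1.map fun ξ => gi V ξ ((n : ℤ) - m)).prod)).re ∧
    0 ≤ (∑ n ∈ range N, ∑ m ∈ range N, c n * star (c m) *
        ((p.2.map fun η => star (gi V η ((n : ℤ) - m))).prod *
          (p.1.map fun ξ => gi V ξ ((n : ℤ) - m)).prod)).re ∧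
    (∑ n ∈ range N, ∑ m ∈ range N, c n * star (c m) *
        ((p.2.map fun η => star (gi V η ((n : ℤ) - m))).prod *
          (p.1.map fun ξ => gi V ξ ((n : ℤ) - m)).prod)).im = 0 := by
  have e : ∀ n m : ℕ, (p.1.map fun ξ => (inner ℂ (V^[m] ξ) (V^[n] ξ) : ℂ)).prod *
      (p.2.map fun ξ => (inner ℂ (V^[n] ξ) (V^[m] ξ) : ℂ)).prod =
      (p.2.map fun η => star (gi V η ((n : ℤ) - m))).prod *
          (p.1.map fun ξ => gi V ξ ((n : ℤ) - m)).prod := by
    intro n m
    rw [mul_comm]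
    congr 2
    · refine List.map_congr_left fun ξ _ => ?_
      rw [← gi_eq V hV ξ m n, ← inner_conj_symm (V^[n] ξ) (V^[m] ξ)]
      rfl
    · exact List.map_congr_left fun ξ _ => gi_eq V hV ξ m n
  have hF : Fac N (fun m n => star (c m) * c n) :=
    ⟨Unit, inferInstance, fun _ n => c n, fun m n _ _ => by simp⟩
  set K1 : ℕ → ℕ → ℂ := fun m n => star (c m) * c n *
    (p.1.map fun ξ => (inner ℂ (V^[m] ξ) (V^[n] ξ) : ℂ)).prod with hK1
  obtain ⟨h1, h2⟩ := qk_word hC hs V p.1 _ hF (fun n => star ((p.2.map V^[n]).map s).prod)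
  have h3 := norm_sum_star_le h1 hC hs V p.2
  have h4 := fac_list' (N := N) V p.2 _ h1
  obtain ⟨-, h5, h6⟩ := qk_one (U := U) h4
  have hS : (∑ m ∈ range N, ∑ n ∈ range N, K1 m n *
      (p.2.map fun ξ => (inner ℂ (V^[n] ξ) (V^[m] ξ) : ℂ)).prod) =
      ∑ n ∈ range N, ∑ m ∈ range N, c n * star (c m) *
        ((p.2.map fun η => star (gi V η ((n : ℤ) - m))).prod *
          (p.1.map fun ξ => gi V ξ ((n : ℤ) - m)).prod) := by
    rw [sum_comm]
    refine sum_congr rfl fun n _ => sum_congr rfl fun m _ => ?_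
    rw [← e, hK1]
    ring
  rw [← hS]
  refine ⟨?_, h5, h6⟩
  set X : U := ∑ n ∈ range N, c n •
    (((p.1.map V^[n]).map s).prod * star ((p.2.map V^[n]).map s).prod) with hX
  have e2 : star X * X = QK N (fun m n => star (c m) * c n)
      (fun n => ((p.1.map V^[n]).map s).prod * star ((p.2.map V^[n]).map s).prod) := by
    rw [qk_eq (R := Unit) (g := fun _ n => c n) (fun m n _ _ => by simp)]
    simp [hX]
  rw [← e2] at h2
  have h7 : ‖star X * X‖ ≤ ‖C ^ p.1.length • QK N K1 (fun n => star ((p.2.map V^[n]).map s).prod)‖ :=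
    CStarAlgebra.norm_le_norm_of_nonneg_of_le (star_mul_self_nonneg X) h2
  rw [norm_smul, norm_pow, Real.norm_of_nonneg hC.le] at h7
  have h8 : ‖X‖ ^ 2 = ‖star X * X‖ := by rw [CStarRing.norm_star_mul_self, sq]
  rw [h8, pow_add, mul_assoc]
  exact h7.trans (mul_le_mul_of_nonneg_left h3 (by positivity))

open Pool.Agent.Helper188.NCM in
/-- Wick ordered words of a row bounded family are Moebius disjoint, uniformly over rotations -/
theorem ud_cword {s : H →ₗ[ℂ] U} {C : ℝ} (hC : 0 < C) (hs : RowBdd s C)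
    (α : U →⋆ₐ[ℂ] U) (V : H → H) (hV : ∀ η ξ, (inner ℂ (V η) (V ξ) : ℂ) = inner ℂ η ξ)
    (hα : ∀ ξ, α (s ξ) = s (V ξ)) (p : List H × List H) :
    Pool.Agent.TH254.FP.UD α (cword s p) := by
  set g : ℤ → ℂ := fun k =>
    (p.2.map fun η => star (gi V η k)).prod * (p.1.map fun ξ => gi V ξ k).prod with hg
  have key := key_bound hC hs V hV p
  have hpsd : ∀ (M : ℕ) (x : ℕ → ℂ),
      0 ≤ (∑ n ∈ range M, ∑ m ∈ range M, x n * star (x m) * g ((n : ℤ) - m)).re ∧
      (∑ n ∈ range M, ∑ m ∈ range M, x n * star (x m) * g ((n : ℤ) - m)).im = 0 :=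
    fun M x => (key M x).2
  have hG : 0 ≤ (g 0).re := by
    have := (hpsd 1 (fun _ => 1)).1
    simpa using this
  set D : ℝ := C ^ (p.1.length + p.2.length) * ((g 0).re + 1) with hD
  have hDpos : 0 < D := by positivity
  intro ε hε
  set δ : ℝ := ε / (2 * (D + 1)) with hδ
  have hδpos : 0 < δ := by positivity
  obtain ⟨N0, h0⟩ := qm_zero δ hδpos
  refine ⟨max N0 1, fun N hN z hz => ?_⟩
  have hN0 : N0 ≤ N := (le_max_left _ _).trans hN
  have hN1 : (1 : ℝ) ≤ N := by exact_mod_cast (le_max_right _ _).trans hN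
  obtain ⟨γ, rfl⟩ := exists_ee hz
  have h1 := Pool.Agent.H398R3.NCM.taskPD g hpsd (N + 1) (fun n => mob n * ee (γ * n))
    (δ * (N + 1 : ℕ)) (by positivity)
    (fun β => by
      refine le_trans (le_of_eq ?_) (h0 (N + 1) (by omega) (γ + β))
      congr 1
      refine sum_congr rfl fun n _ => ?_
      rw [mul_assoc, ← ee_add]
      congr 2
      ring)
  have h2 := (key (N + 1) (fun n => mob n * ee (γ * n))).1
  have e1 : Pool.Agent.TH254.FP.ms α (cword s p) N (ee γ) = ∑ n ∈ range (N + 1),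
      (mob n * ee (γ * n)) •
        (((p.1.map V^[n]).map s).prod * star ((p.2.map V^[n]).map s).prod) := by
    rw [Pool.Agent.TH254.FP.sum_range_Icc _ (by simp [mob])]
    unfold Pool.Agent.TH254.FP.ms
    refine sum_congr rfl fun n _ => ?_
    rw [iter_word α s V hα, ← ee_nat_mul]
    rfl
  rw [e1]
  refine abs_le_of_sq_le_sq' ?_ (by positivity) |>.2
  refine h2.trans ((mul_le_mul_of_nonneg_left h1 (by positivity)).trans ?_)
  have h3 : ((N + 1 : ℕ) : ℝ) ≤ 2 * N := by push_cast; linarith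
  have h4 : C ^ (p.1.length + p.2.length) * ((δ * (N + 1 : ℕ)) ^ 2 * (g 0).re) ≤
      D * (δ * (N + 1 : ℕ)) ^ 2 := by
    rw [hD]
    have : 0 ≤ C ^ (p.1.length + p.2.length) * (δ * (N + 1 : ℕ)) ^ 2 := by positivity
    nlinarith
  refine h4.trans ?_
  have h5 : D * (δ * (N + 1 : ℕ)) ^ 2 ≤ (D + 1) ^ 2 * (δ * (2 * N)) ^ 2 := by
    have h6 : (δ * (N + 1 : ℕ)) ^ 2 ≤ (δ * (2 * N)) ^ 2 := by gcongr
    have h7 : D ≤ (D + 1) ^ 2 := by nlinarith
    exact mul_le_mul h7 h6 (by positivity) (by positivity)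
  refine h5.trans (le_of_eq ?_)
  rw [hδ]
  field_simp

end Pool.Agent.Q92.Wick
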